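import Pool.Agent.helper23.CO.SpecC

/-!
# Row co:HYB (MP_7c3fb3_pr): one term of the hybrid argument
-/

open Finset Filter Topology

namespace CO

open CU

section HYBsec
variable {d n : ℕ} [NeZero n]

/-- `σ'` on `B`, `σ` elsewhere -/
def HYB_mrg (B : Finset (Site d n)) (σ σ' : Conf d n) : Conf d n :=
  fun y => if y ∈ B then σ' y else σ y

omit [NeZero n] in
theorem HYB_mrg_in (B : Finset (Site d n)) (σ σ' : Conf d n) {y : Site d n} (h : y ∈ B) :
    HYB_mrg B σ σ' y = σ' y := if_pos h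

omit [NeZero n] in
theorem HYB_mrg_out (B : Finset (Site d n)) (σ σ' : Conf d n) {y : Site d n} (h : y ∉ B) :
    HYB_mrg B σ σ' y = σ y := if_neg h

omit [NeZero n] in
theorem HYB_mrg_mrg (B : Finset (Site d n)) (σ σ' : Conf d n) :
    HYB_mrg B (HYB_mrg B σ σ') (HYB_mrg B σ' σ) = σ := by
  funext y
  by_cases h : y ∈ B
  · rw [HYB_mrg_in _ _ _ h, HYB_mrg_in _ _ _ h]
  · rw [HYB_mrg_out _ _ _ h, HYB_mrg_out _ _ _ h]

theorem HYB_mem {R : Finset (Site d n)} {τ σ : Conf d n} :
    σ ∈ fo R τ ↔ ∀ y, y ∉ R → σ y = τ y := by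
  unfold fo
  rw [Finset.mem_filter]
  exact ⟨fun h => h.2, fun h => ⟨Finset.mem_univ _, h⟩⟩

theorem HYB_mrg_mem {R B : Finset (Site d n)} {τ σ σ' : Conf d n} (h : σ ∈ fo R τ)
    (h' : σ' ∈ fo R τ) : HYB_mrg B σ σ' ∈ fo R τ := by
  rw [HYB_mem] at h h' ⊢
  intro y hy
  by_cases hb : y ∈ B
  · rw [HYB_mrg_in _ _ _ hb]
    exact h' y hy
  · rw [HYB_mrg_out _ _ _ hb]
    exact h y hy

theorem HYB_brk {R B : Finset (Site d n)} (hB : B ⊆ R) {τ σ σ' : Conf d n} (h : σ ∈ fo R τ)
    (h' : σ' ∈ fo R τ) :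
    (brk (HYB_mrg B σ σ')).card + (brk (HYB_mrg B σ' σ)).card ≤ (brk σ).card + (brk σ').card +
      2 * ((univ : Finset (Edge d n)).filter fun e => e.1 ∈ R ∧ e.1 + ev e.2 ∈ R ∧
        (e.1 ∈ B ↔ e.1 + ev e.2 ∉ B)).card := by
  rw [HYB_mem] at h h'
  unfold brk
  rw [Finset.card_filter, Finset.card_filter, Finset.card_filter, Finset.card_filter,
    Finset.card_filter, Finset.mul_sum, ← Finset.sum_add_distrib, ← Finset.sum_add_distrib,
    ← Finset.sum_add_distrib]
  refine Finset.sum_le_sum fun e _ => ?_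
  obtain ⟨u, hu⟩ : ∃ u, u = e.1 := ⟨_, rfl⟩
  obtain ⟨v, hv⟩ : ∃ v, v = e.1 + ev e.2 := ⟨_, rfl⟩
  rw [← hv, ← hu]
  by_cases h1 : u ∈ B <;> by_cases h2 : v ∈ B
  · rw [HYB_mrg_in _ _ _ h1, HYB_mrg_in _ _ _ h2, HYB_mrg_in _ _ _ h1, HYB_mrg_in _ _ _ h2]
    omega
  · have hR1 : u ∈ R := hB h1
    rw [HYB_mrg_in _ _ _ h1, HYB_mrg_out _ _ _ h2, HYB_mrg_in _ _ _ h1, HYB_mrg_out _ _ _ h2]
    by_cases h3 : v ∈ R
    · have h4 : u ∈ R ∧ v ∈ R ∧ (u ∈ B ↔ v ∉ B) := ⟨hR1, h3, fun _ => h2, fun _ => h1⟩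
      rw [if_pos h4]
      split_ifs <;> omega
    · rw [h v h3, h' v h3]
      omega
  · have hR1 : v ∈ R := hB h2
    rw [HYB_mrg_out _ _ _ h1, HYB_mrg_in _ _ _ h2, HYB_mrg_out _ _ _ h1, HYB_mrg_in _ _ _ h2]
    by_cases h3 : u ∈ R
    · have h4 : u ∈ R ∧ v ∈ R ∧ (u ∈ B ↔ v ∉ B) :=
        ⟨h3, hR1, fun h5 => absurd h5 h1, fun h5 => absurd h2 h5⟩
      rw [if_pos h4]
      split_ifs <;> omega
    · rw [h u h3, h' u h3]
      omega
  · rw [HYB_mrg_out _ _ _ h1, HYB_mrg_out _ _ _ h2, HYB_mrg_out _ _ _ h1, HYB_mrg_out _ _ _ h2]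
    omega

theorem HYB_flip (ζ : Conf d n) (x : Site d n) (b b' : Bool) :
    (brk (Function.update ζ x b)).card ≤ (brk (Function.update ζ x b')).card + 2 * d := by
  have h1 : brk (Function.update ζ x b) ⊆ brk (Function.update ζ x b') ∪
      ((univ.image fun i : Fin d => (x, i)) ∪ (univ.image fun i : Fin d => (x - ev i, i))) := by
    intro e he
    rw [Finset.mem_union, Finset.mem_union]
    by_cases h2 : e.1 = x
    · right
      left
      rw [Finset.mem_image]
      exact ⟨e.2, Finset.mem_univ _, Prod.ext h2.symm rfl⟩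
    · by_cases h3 : e.1 + ev e.2 = x
      · right
        right
        rw [Finset.mem_image]
        refine ⟨e.2, Finset.mem_univ _, Prod.ext ?_ rfl⟩
        rw [← h3]
        simp
      · left
        unfold brk at he ⊢
        rw [Finset.mem_filter] at he ⊢
        rw [Function.update_of_ne h2, Function.update_of_ne h3] at he ⊢
        exact he
  refine (Finset.card_le_card h1).trans ((Finset.card_union_le _ _).trans ?_)
  refine Nat.add_le_add_left ((Finset.card_union_le _ _).trans ?_) _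
  have h2 : (univ.image fun i : Fin d => ((x, i) : Edge d n)).card ≤ d := by
    refine Finset.card_image_le.trans ?_
    simp
  have h3 : (univ.image fun i : Fin d => ((x - ev i, i) : Edge d n)).card ≤ d := by
    refine Finset.card_image_le.trans ?_
    simp
  omega

theorem HYB_W_pos (β : ℝ) (σ : Conf d n) : 0 < W β σ := Real.exp_pos _

theorem HYB_W_flip (β : ℝ) (hβ : 0 ≤ β) (ζ : Conf d n) (x : Site d n) (b b' : Bool) :
    W β (Function.update ζ x b) ≤ Real.exp (4 * d * β) * W β (Function.update ζ x b') := by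
  unfold W
  rw [← Real.exp_add]
  apply Real.exp_le_exp.2
  have h1 : ((brk (Function.update ζ x b')).card : ℝ) ≤
      (brk (Function.update ζ x b)).card + 2 * d := by
    exact_mod_cast HYB_flip ζ x b' b
  nlinarith

theorem HYB_pair {R : Finset (Site d n)} {x : Site d n} (hx : x ∈ R) (τ : Conf d n)
    (F : Conf d n → ℝ) : 2 * ∑ ζ ∈ fo R τ, F ζ =
      ∑ ζ ∈ fo R τ, (F (Function.update ζ x true) + F (Function.update ζ x false)) := by
  have h1 : ∀ ζ ∈ fo R τ, Function.update ζ x (!ζ x) ∈ fo R τ := by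
    intro ζ hζ
    rw [HYB_mem] at hζ ⊢
    intro y hy
    have hyx : y ≠ x := fun h => hy (h ▸ hx)
    rw [Function.update_of_ne hyx]
    exact hζ y hy
  have h2 : ∀ ζ : Conf d n, Function.update (Function.update ζ x (!ζ x)) x
      (!(Function.update ζ x (!ζ x)) x) = ζ := by
    intro ζ
    rw [Function.update_self, Function.update_idem, Bool.not_not, Function.update_eq_self]
  have h3 : ∑ ζ ∈ fo R τ, F ζ = ∑ ζ ∈ fo R τ, F (Function.update ζ x (!ζ x)) := by
    refine Finset.sum_nbij' (fun ζ => Function.update ζ x (!ζ x))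
      (fun ζ => Function.update ζ x (!ζ x)) h1 h1 (fun ζ _ => h2 ζ) (fun ζ _ => h2 ζ) ?_
    intro ζ _
    simp only [h2]
  rw [two_mul]
  nth_rw 2 [h3]
  rw [← Finset.sum_add_distrib]
  refine Finset.sum_congr rfl fun ζ _ => ?_
  cases hc : ζ x with
  | true =>
    have h4 : Function.update ζ x true = ζ := by rw [← hc, Function.update_eq_self]
    rw [h4, Bool.not_true]
  | false =>
    have h4 : Function.update ζ x false = ζ := by rw [← hc, Function.update_eq_self]
    rw [h4, Bool.not_false, add_comm]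

/-- two weights `a`, `b` with ratio at most `E` -/
theorem HYB_ab (a b E y z : ℝ) (ha : 0 < a) (hb : 0 < b) (_hE : 1 ≤ E) (hab : a ≤ E * b)
    (hba : b ≤ E * a) : (a + b) * (y - z) ^ 2 ≤
      4 * E * (a * (y - (a * y + b * z) / (a + b)) ^ 2 + b * (z - (a * y + b * z) / (a + b)) ^ 2) := by
  have hs : 0 < a + b := by linarith
  have h1 : y - (a * y + b * z) / (a + b) = b / (a + b) * (y - z) := by
    field_simp
    ring
  have h2 : z - (a * y + b * z) / (a + b) = -(a / (a + b) * (y - z)) := by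
    field_simp
    ring
  have h3 : a * (b / (a + b) * (y - z)) ^ 2 + b * (-(a / (a + b) * (y - z))) ^ 2 =
      a * b / (a + b) * (y - z) ^ 2 := by
    field_simp
    ring
  rw [h1, h2, h3, ← mul_assoc]
  refine mul_le_mul_of_nonneg_right ?_ (sq_nonneg _)
  rw [mul_div_assoc', le_div_iff₀ hs]
  -- `(a + b)^2 ≤ 4 E a b`
  rcases le_total a b with h | h
  · nlinarith [mul_nonneg hb.le (sub_nonneg.2 hba), mul_pos ha hb]
  · nlinarith [mul_nonneg ha.le (sub_nonneg.2 hab), mul_pos ha hb]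

theorem HYB_K (β : ℝ) (x : Site d n) (f : Conf d n → ℝ) (ζ : Conf d n) (b : Bool) :
    Kx β x f (Function.update ζ x b) = Kx β x f ζ := by
  unfold Kx
  simp only [Function.update_idem]

theorem HYB_sum (β : ℝ) (hβ : 0 ≤ β) {R : Finset (Site d n)} {x : Site d n} (hx : x ∈ R)
    (τ : Conf d n) (f : Conf d n → ℝ) :
    ∑ ζ ∈ fo R τ, W β ζ * (f (Function.update ζ x true) - f (Function.update ζ x false)) ^ 2 ≤
      4 * Real.exp (4 * d * β) * ∑ ζ ∈ fo R τ, W β ζ * (f ζ - Kx β x f ζ) ^ 2 := by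
  have hE : 1 ≤ Real.exp (4 * d * β) := Real.one_le_exp (by positivity)
  have h1 := HYB_pair hx τ (fun ζ => W β ζ *
    (f (Function.update ζ x true) - f (Function.update ζ x false)) ^ 2)
  have h2 := HYB_pair hx τ (fun ζ => W β ζ * (f ζ - Kx β x f ζ) ^ 2)
  have h3 : ∑ ζ ∈ fo R τ, (W β (Function.update ζ x true) *
      (f (Function.update (Function.update ζ x true) x true) -
        f (Function.update (Function.update ζ x true) x false)) ^ 2 +
      W β (Function.update ζ x false) *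
      (f (Function.update (Function.update ζ x false) x true) -
        f (Function.update (Function.update ζ x false) x false)) ^ 2) ≤
      4 * Real.exp (4 * d * β) * ∑ ζ ∈ fo R τ, (W β (Function.update ζ x true) *
        (f (Function.update ζ x true) - Kx β x f (Function.update ζ x true)) ^ 2 +
        W β (Function.update ζ x false) *
        (f (Function.update ζ x false) - Kx β x f (Function.update ζ x false)) ^ 2) := by
    rw [Finset.mul_sum]
    refine Finset.sum_le_sum fun ζ _ => ?_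
    rw [HYB_K, HYB_K]
    simp only [Function.update_idem]
    have h4 := HYB_ab (W β (Function.update ζ x true)) (W β (Function.update ζ x false))
      (Real.exp (4 * d * β)) (f (Function.update ζ x true)) (f (Function.update ζ x false))
      (HYB_W_pos _ _) (HYB_W_pos _ _) hE (HYB_W_flip β hβ ζ x true false)
      (HYB_W_flip β hβ ζ x false true)
    unfold Kx
    linarith
  rw [← h1, ← h2] at h3
  linarith

end HYBsec

theorem HYB : HYB_stmt := by
  intro d n _ _ β R A x c hβ hA hxR hxA hc f τ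
  have hBR : insert x A ⊆ R := Finset.insert_subset hxR hA
  obtain ⟨B, hBdef⟩ : ∃ B, B = insert x A := ⟨_, rfl⟩
  rw [← hBdef] at hBR hc
  have hxB : x ∈ B := by
    rw [hBdef]
    exact Finset.mem_insert_self _ _
  obtain ⟨Z, hZ⟩ : ∃ Z : ℝ, Z = ∑ σ ∈ fo R τ, W β σ := ⟨_, rfl⟩
  have hτ : τ ∈ fo R τ := HYB_mem.2 fun _ _ => rfl
  have hZpos : 0 < Z := by
    rw [hZ]
    exact Finset.sum_pos (fun σ _ => HYB_W_pos β σ) ⟨τ, hτ⟩
  obtain ⟨Δ, hΔ⟩ : ∃ Δ : Conf d n → ℝ, Δ = fun ζ =>
    (f (Function.update ζ x true) - f (Function.update ζ x false)) ^ 2 := ⟨_, rfl⟩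
  -- each term
  have hterm : ∀ σ ∈ fo R τ, ∀ σ' ∈ fo R τ, W β σ * W β σ' *
      (f (fun y => if y ∈ A then σ' y else σ y) -
        f (fun y => if y ∈ insert x A then σ' y else σ y)) ^ 2 ≤
      Real.exp (4 * β * c) * (W β (HYB_mrg B σ σ') * W β (HYB_mrg B σ' σ) *
        Δ (HYB_mrg B σ σ')) := by
    intro σ hσ σ' hσ'
    have e1 : (fun y => if y ∈ insert x A then σ' y else σ y) = HYB_mrg B σ σ' := by
      rw [hBdef]
      rfl
    have e2 : (fun y => if y ∈ A then σ' y else σ y) =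
        Function.update (HYB_mrg B σ σ') x (σ x) := by
      funext y
      by_cases hy : y = x
      · subst hy
        rw [Function.update_self, if_neg hxA]
      · rw [Function.update_of_ne hy]
        by_cases hyA : y ∈ A
        · rw [if_pos hyA, HYB_mrg_in]
          rw [hBdef]
          exact Finset.mem_insert_of_mem hyA
        · rw [if_neg hyA, HYB_mrg_out]
          rw [hBdef, Finset.mem_insert]
          exact fun h => h.elim hy hyA
    rw [e1, e2]
    have hD : (f (Function.update (HYB_mrg B σ σ') x (σ x)) - f (HYB_mrg B σ σ')) ^ 2 ≤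
        Δ (HYB_mrg B σ σ') := by
      rw [hΔ]
      simp only
      obtain ⟨ζ, hζ⟩ : ∃ ζ, ζ = HYB_mrg B σ σ' := ⟨_, rfl⟩
      rw [← hζ]
      have e3 : f ζ = f (Function.update ζ x (ζ x)) := by rw [Function.update_eq_self]
      rw [e3]
      cases σ x <;> cases ζ x
      · nlinarith [sq_nonneg (f (Function.update ζ x true) - f (Function.update ζ x false))]
      · nlinarith
      · exact le_refl _
      · nlinarith [sq_nonneg (f (Function.update ζ x true) - f (Function.update ζ x false))]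
    have hW : W β σ * W β σ' ≤ Real.exp (4 * β * c) *
        (W β (HYB_mrg B σ σ') * W β (HYB_mrg B σ' σ)) := by
      have h1 := HYB_brk hBR hσ hσ'
      have h2 : ((brk (HYB_mrg B σ σ')).card : ℝ) + (brk (HYB_mrg B σ' σ)).card ≤
          (brk σ).card + (brk σ').card + 2 * c := by
        have h3 := h1.trans (Nat.add_le_add_left (Nat.mul_le_mul_left 2 hc) _)
        exact_mod_cast h3
      unfold W
      rw [← Real.exp_add, ← Real.exp_add, ← Real.exp_add]
      apply Real.exp_le_exp.2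
      nlinarith
    calc W β σ * W β σ' * (f (Function.update (HYB_mrg B σ σ') x (σ x)) -
          f (HYB_mrg B σ σ')) ^ 2
        ≤ (Real.exp (4 * β * c) * (W β (HYB_mrg B σ σ') * W β (HYB_mrg B σ' σ))) *
          Δ (HYB_mrg B σ σ') := by
          refine mul_le_mul hW hD (sq_nonneg _) ?_
          exact mul_nonneg (Real.exp_pos _).le (mul_pos (HYB_W_pos _ _) (HYB_W_pos _ _)).le
      _ = Real.exp (4 * β * c) * (W β (HYB_mrg B σ σ') * W β (HYB_mrg B σ' σ) *
          Δ (HYB_mrg B σ σ')) := by ring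
  -- the sum
  have hsum : ∑ σ ∈ fo R τ, ∑ σ' ∈ fo R τ, W β σ * W β σ' *
      (f (fun y => if y ∈ A then σ' y else σ y) -
        f (fun y => if y ∈ insert x A then σ' y else σ y)) ^ 2 ≤
      Real.exp (4 * β * c) * (Z * ∑ ζ ∈ fo R τ, W β ζ * Δ ζ) := by
    calc ∑ σ ∈ fo R τ, ∑ σ' ∈ fo R τ, W β σ * W β σ' *
          (f (fun y => if y ∈ A then σ' y else σ y) -
            f (fun y => if y ∈ insert x A then σ' y else σ y)) ^ 2
        ≤ ∑ σ ∈ fo R τ, ∑ σ' ∈ fo R τ, Real.exp (4 * β * c) *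
          (W β (HYB_mrg B σ σ') * W β (HYB_mrg B σ' σ) * Δ (HYB_mrg B σ σ')) :=
          Finset.sum_le_sum fun σ hσ => Finset.sum_le_sum fun σ' hσ' => hterm σ hσ σ' hσ'
      _ = Real.exp (4 * β * c) * ∑ p ∈ fo R τ ×ˢ fo R τ,
          (W β (HYB_mrg B p.1 p.2) * W β (HYB_mrg B p.2 p.1) * Δ (HYB_mrg B p.1 p.2)) := by
          rw [Finset.sum_product, Finset.mul_sum]
          refine Finset.sum_congr rfl fun σ _ => ?_
          rw [Finset.mul_sum]
      _ = Real.exp (4 * β * c) * ∑ p ∈ fo R τ ×ˢ fo R τ, (W β p.1 * W β p.2 * Δ p.1) := by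
          congr 1
          refine Finset.sum_nbij' (fun p => (HYB_mrg B p.1 p.2, HYB_mrg B p.2 p.1))
            (fun p => (HYB_mrg B p.1 p.2, HYB_mrg B p.2 p.1)) ?_ ?_ ?_ ?_ ?_
          · intro p hp
            rw [Finset.mem_product] at hp ⊢
            exact ⟨HYB_mrg_mem hp.1 hp.2, HYB_mrg_mem hp.2 hp.1⟩
          · intro p hp
            rw [Finset.mem_product] at hp ⊢
            exact ⟨HYB_mrg_mem hp.1 hp.2, HYB_mrg_mem hp.2 hp.1⟩
          · intro p _
            simp only [HYB_mrg_mrg, Prod.mk.eta]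
          · intro p _
            simp only [HYB_mrg_mrg, Prod.mk.eta]
          · intro p _
            rfl
      _ = Real.exp (4 * β * c) * (Z * ∑ ζ ∈ fo R τ, W β ζ * Δ ζ) := by
          congr 1
          rw [Finset.sum_product, Finset.mul_sum]
          refine Finset.sum_congr rfl fun σ _ => ?_
          simp only
          rw [hZ, Finset.sum_mul]
          refine Finset.sum_congr rfl fun σ' _ => ?_
          ring
  have hS := HYB_sum β hβ hxR τ f
  have hΔ' : ∑ ζ ∈ fo R τ, W β ζ * Δ ζ = ∑ ζ ∈ fo R τ, W β ζ *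
      (f (Function.update ζ x true) - f (Function.update ζ x false)) ^ 2 := by
    rw [hΔ]
  rw [← hΔ'] at hS
  unfold ER
  rw [← hZ, div_le_iff₀ (by positivity)]
  refine hsum.trans ?_
  have h1 : Real.exp (4 * β * c + 4 * d * β) = Real.exp (4 * β * c) * Real.exp (4 * d * β) :=
    Real.exp_add _ _
  rw [h1]
  have h2 : 4 * (Real.exp (4 * β * c) * Real.exp (4 * d * β)) *
      ((∑ η ∈ fo R τ, W β η * (f η - Kx β x f η) ^ 2) / Z) * Z ^ 2 =
      Real.exp (4 * β * c) * (Z * (4 * Real.exp (4 * d * β) *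
        ∑ η ∈ fo R τ, W β η * (f η - Kx β x f η) ^ 2)) := by
    field_simp
  rw [h2]
  exact mul_le_mul_of_nonneg_left (mul_le_mul_of_nonneg_left hS hZpos.le) (Real.exp_pos _).le

end CO
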